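import Pool.Agent.H896.SC.Main

/-!
# Total scalar curvature and Kodaira dimension of coverings of quotients of `ℂ^n × P^{r_1} × ... × P^{r_c}`

Let `V = ℂ^n`, `F = P^{r_1} × ... × P^{r_c}`, and let `Γ` be any group of holomorphic isometries of `V × F`
which acts properly discontinuously with a compact quotient `X = (V × F) / Γ`. So `X` is a compact Kähler
space, usually not projective: the group may act on `F` by arbitrary projectively unitary representations,
permute the factors, have fixed points and contain reflections. Let `Y → X` be a fibre product of cyclic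
coverings of orders `q_i ≥ 2`, branched along effective Cartier divisors `D_i`, and let `Y` be klt. If `Γ`
acts without fixed points and the `D_i` are smooth and cross normally then `Y` is a compact Kähler manifold
of any dimension, usually not projective. The theorem says that the following are equivalent:

* the Kodaira dimension of `Y` is `-∞`;
* `K_Y` is not semiample;
* `K_Y` is not pseudo-effective: it has no singular hermitian metric with positive curvature current;
* there is a Kähler class `[ω]` on `X` with `K_Y · π^* [ω] ^ (d - 1) < 0`, `d = dim Y`; so the Kähler metrics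
  on `Y` in the classes near `π^* [ω]` have positive total scalar curvature.

So the answer to Q1 is positive for these manifolds `Y`, even with Kähler instead of Gauduchon metrics, and
also for all manifolds in class `𝒞` which are bimeromorphic to them as far as the equivalent form of Q1 is
concerned (pseudo-effective implies `ℚ`-effective).

The proof. (a) The pullback to `Y` of a class `x` on `X` contains a closed positive current if and only if
`x` is nef (`SC/Cur.lean`, `SC/Psh.lean`): a weight of such a current is a plurisubharmonic function on the
covering `Ỹ` of `V × (affine cone of F)`. If `x` is negative on a complex line in `V`, or in a factor of `F`,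
then the weight tends to `-∞` at infinity on the branched covering of this line in `Ỹ`, because the current
is invariant and `Y` is compact; this contradicts the maximum principle, for which one uses discs
`s ↦ t_0 + s ^ Q` which lift to the branched covering (`SC/Root.lean`, `SC/Max.lean`). For the other direction
one needs Jensen's formula on holomorphic discs (`SC/Jen.lean`). (b) `K_Y` is the pullback of the klt
adjoint class `K_X + ∑ (1 - 1 / q_i) D_i`, so that nef implies semiample (`IR/*.lean`), and a section over `Y`
gives a section of a multiple of it on `X` (`GN/Cov.lean`). (c) If `x = K_X + ∑ (1 - 1 / q_i) D_i` is not nef,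
one takes for `ω` the metric `x + κ ω_0`, where `ω_0` is the standard metric on `V × F` and `κ` is slightly
larger than the smallest number for which this is semipositive: the trace of `x` with respect to `ω` is
negative, by the spectral theorem (`SC/Tr.lean`).

The definitions are in `Pool.Agent.H896.SC.Stmt`, `Pool.Agent.H896.GN.Stmt`, `Pool.Agent.H896.IR.Stmt` and
`Pool.Agent.H896.IQ.Stmt`, and `Co`, `IsPt`, `mulBy`, `Trans`, `onV`, `onZ`, `jac`, `same`, `lin`, `IsHomog`
and `IsEffective` in `Pool.Agent.T2H08.FQ.Stmt` of the library; `IsHermitian` is defined in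
`Pool.Agent.W594.SYZ.Defs2` and `IsNefForm` in `Pool.Agent.W594.SYZ.TQDefs`.
-/

set_option autoImplicit false

namespace Pool.Agent.Results.MP_23b606_ag.CoveringsOfIsometryQuotients

open Pool.Agent.T2H08.FB (Co Trans)
open Pool.Agent.H896.IG

/-- Let `X = (V × F) / Γ` be a compact quotient of `V × F`, `V = ℂ^n`, `F = P^{r 0} × ... × P^{r (c - 1)}`, by
a discrete group of holomorphic isometries, let the entire function `ρ` on `V` and the polynomial `σ`
define the ramification divisor of `V × F → X`, let `K = O_X (m K_X)`, `m ≥ 1`, and let the `D i`, given by
the sections `β i`, be effective Cartier divisors, `R i` line bundles with `(R i) ^ (q i) = D i`, `q i ≥ 2`, and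
`Y → X` the fibre product of the corresponding cyclic coverings, so that `K_Y` is the pullback of
`K_X + ∑ (1 - 1 / q i) D_i`. Let this pair be klt (that is, let `Y` be klt). Then:

(1) `Y` has Kodaira dimension `-∞` if and only if for some invariant Kähler metric `ω` on `V × F` the trace
of `K_X + ∑ (1 - 1 / q i) D_i` is negative, that is, `K_Y · π^* [ω] ^ (d - 1) < 0`, so that `Y` has Kähler
metrics of positive total scalar curvature.

(2) The Kodaira dimension of `Y` is `≥ 0` if and only if `K_Y` is pseudo-effective (it has a singular
hermitian metric with a positive curvature current), and if and only if `K_Y` is semiample. -/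
theorem result {n c : ℕ} {r : Fin c → ℕ} (Γ : Subgroup (Trans n r)) (hΓ : IsIsometryGroup Γ)
    (ρ : (Fin n → ℂ) → ℂ) (σ : MvPolynomial (Co r) ℂ) (l : Fin c → ℕ)
    (hρ : IsRamification Γ ρ σ l) (m : ℕ) (hm : 1 ≤ m) (K : LineBundle Γ)
    (hK : IsLogPluricanonical K m ρ σ l (fun _ => 1) (fun _ => 0))
    (HK : (Fin n → ℂ) → (Fin n → ℂ) → ℂ) (hHK : K.IsChernForm HK) {N : ℕ}
    (D : Fin N → LineBundle Γ) (β : Fin N → (Fin n → ℂ) → MvPolynomial (Co r) ℂ)
    (κ : Fin N → Fin c → ℕ) (hβ : ∀ i, IsCartier (D i) (β i) (κ i))
    (HD : Fin N → (Fin n → ℂ) → (Fin n → ℂ) → ℂ) (hHD : ∀ i, (D i).IsChernForm (HD i))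
    (q : Fin N → ℕ) (hq : ∀ i, 2 ≤ q i) (R : Fin N → LineBundle Γ)
    (hR : ∀ i, IsRoot (R i) (q i) (D i)) (hklt : IsKltReal ρ σ (fun i => 1 - 1 / (q i : ℝ)) β) :
    (¬ HasPluricanonicalForm K D R m q β ↔ HasPositiveTotalScalarCurvature Γ
      (realClass K HK D HD (1 / m) fun i => 1 - 1 / (q i : ℝ))) ∧
    (HasPluricanonicalForm K D R m q β ↔ HasCoverCurrent Γ R q β
      (realClass K HK D HD (1 / m) fun i => 1 - 1 / (q i : ℝ))) ∧
    (HasPluricanonicalForm K D R m q β ↔ IsCoverCanonicalSemiample K D R m q β) :=
  cover_main hΓ hρ hm hK hHK hβ hHD hR hq hklt

end Pool.Agent.Results.MP_23b606_ag.CoveringsOfIsometryQuotients
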